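import Pool.Agent.H53.RdC

/-! Finite-time blow-up for `u_t + J_K u = v f(u)`, `v_t - Δ v = - v f(u)` on `ℝ³`. -/

namespace Pool.Agent.Results.MP_360b3f_an.Counter

open MeasureTheory Set Real H53.Rd
open scoped ENNReal

/-- centres of the hot balls -/
noncomputable def ctr (i : ℕ) : E := EuclideanSpace.single 0 ((1 / 2 : ℝ) ^ i)

lemma dist_ctr (i j : ℕ) : dist (ctr i) (ctr j) = |(1 / 2 : ℝ) ^ i - (1 / 2) ^ j| := by
  unfold ctr
  rw [EuclideanSpace.dist_single_same, Real.dist_eq]

lemma tsum_geo {a : ℝ} (ha : 0 ≤ a) :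
    ∑' i : ℕ, ENNReal.ofReal (a * (1 / 2) ^ i) = ENNReal.ofReal (2 * a) := by
  rw [← ENNReal.ofReal_tsum_of_nonneg (fun i => by positivity)
    (summable_geometric_two.mul_left a), tsum_mul_left, tsum_geometric_two, mul_comm]

theorem result (K : E → ℝ) (hK : ContDiff ℝ (⊤ : ℕ∞) K) (hKc : HasCompactSupport K)
    (hK0 : ∀ y, 0 ≤ K y) :
    ∃ f : ℝ → ℝ, ContDiff ℝ (⊤ : ℕ∞) f ∧ (∀ z, 0 ≤ f z) ∧
      ∃ B : Set E, IsOpen B ∧ B ⊆ Metric.closedBall 0 2 ∧
        ∃ T > 0, ∀ u v : ℝ → E → ℝ, ¬ IsSol K f (B.indicator fun _ => 3) T u v := by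
  have hKi : Integrable K := hK.continuous.integrable_of_hasCompactSupport hKc
  have hKm : Measurable K := hK.continuous.measurable
  obtain ⟨κ, hκ⟩ := hK.continuous.bounded_above_of_compact_support hKc
  have hκ' : ∀ y, K y ≤ κ := fun y => (le_abs_self _).trans (hκ y)
  set k := ∫ y, K y with hk
  have hk0 : 0 ≤ k := integral_nonneg hK0
  have hκ0 : 0 ≤ κ := (hK0 0).trans (hκ' 0)
  set T := 1 / (4 * (k + κ) + 2) with hTdef
  have hT : 0 < T := by positivity
  have hT1 : T * (4 * (k + κ) + 2) = 1 := by rw [hTdef]; field_simp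
  have hT2 : T ≤ 1 / 2 := by nlinarith
  set c := 2 * k + 3 / T with hc
  have hc0 : 0 ≤ c := by positivity
  set f : ℝ → ℝ := fun z => c * z ^ 2 * Real.smoothTransition (z - 1) with hf
  have hfs : ContDiff ℝ (⊤ : ℕ∞) f :=
    (contDiff_const.mul (contDiff_id.pow 2)).mul
      (Real.smoothTransition.contDiff.comp (contDiff_id.sub contDiff_const))
  have hfm : Measurable f := hfs.continuous.measurable
  have hf0 : ∀ z, 0 ≤ f z := fun z =>
    mul_nonneg (by positivity) (Real.smoothTransition.nonneg _)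
  have hf1 : ∀ z ≤ 1, f z = 0 := fun z hz => by
    simp only [hf]; rw [Real.smoothTransition.zero_of_nonpos (by linarith), mul_zero]
  have hf2 : ∀ z, 2 ≤ z → c * z ^ 2 ≤ f z := fun z hz => by
    simp only [hf]; rw [Real.smoothTransition.one_of_one_le (by linarith), mul_one]
  set ε := T / 10 ^ 7 with hε
  have hε0 : 0 < ε := by positivity
  have hε1 : ε ≤ 1 / 10 ^ 7 := by rw [hε]; gcongr; linarith
  set r : ℕ → ℝ := fun i => ε * (1 / 2) ^ i * ((1 / 2) ^ i) ^ 4 with hr
  have hp0 : ∀ i : ℕ, (0 : ℝ) < (1 / 2) ^ i := fun i => by positivity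
  have hp1 : ∀ i : ℕ, (1 / 2 : ℝ) ^ i ≤ 1 := fun i => pow_le_one₀ (by norm_num) (by norm_num)
  have hr0 : ∀ i, 0 < r i := fun i => by positivity
  have hr1 : ∀ i, r i ≤ ε * (1 / 2) ^ i := fun i =>
    mul_le_of_le_one_right (by positivity) (pow_le_one₀ (hp0 i).le (hp1 i))
  have hr2 : ∀ i, r i ≤ ε := fun i => (hr1 i).trans (mul_le_of_le_one_right hε0.le (hp1 i))
  set B := ⋃ i, Metric.ball (ctr i) (r i) with hB
  have hBo : IsOpen B := isOpen_iUnion fun i => Metric.isOpen_ball
  refine ⟨f, hfs, hf0, B, hBo, ?_, 2 * T, by positivity, fun u v h => ?_⟩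
  · refine iUnion_subset fun i y hy => ?_
    have h1 : dist (ctr i) 0 ≤ 1 := by
      rw [dist_zero_right, ctr, EuclideanSpace.norm_single, Real.norm_eq_abs, abs_of_pos (hp0 i)]
      exact hp1 i
    have := dist_triangle y (ctr i) 0
    have h2 := Metric.mem_ball.1 hy
    rw [Metric.mem_closedBall]
    linarith [hr2 i]
  obtain ⟨L, hL⟩ := h.u_bdd
  have hΦ : ∀ t ∈ Icc 0 (2 * T), ∀ x, f (u t x) ≤ c * L ^ 2 := by
    intro t ht x
    have h1 := Real.smoothTransition.le_one (u t x - 1)
    have h2 : u t x ^ 2 ≤ L ^ 2 := by gcongr; exacts [h.u_nonneg t ht x, hL t ht x]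
    calc f (u t x) ≤ c * u t x ^ 2 * 1 := mul_le_mul_of_nonneg_left h1 (by positivity)
      _ ≤ _ := by rw [mul_one]; gcongr
  set Φ := c * L ^ 2 with hΦdef
  have hΦ0 : 0 ≤ Φ := by positivity
  have hs2 : ∀ s ∈ Icc 0 T, s ∈ Icc 0 (2 * T) := fun s hs => ⟨hs.1, by linarith [hs.2]⟩
  set F : ℝ → E → ℝ := fun s y => v s y * f (u s y) with hF
  have hFm : Measurable (fun p : ℝ × E => ENNReal.ofReal (F p.1 p.2)) := (h.measF hfm).ennreal_ofReal
  have hmm : ∀ A : Set E, Measurable fun s => ∫⁻ y in A, ENNReal.ofReal (F s y) := fun A =>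
    Measurable.lintegral_prod_right' (ν := volume.restrict A) hFm
  have mass : ∀ i, ∫⁻ s in Ioc 0 T, ∫⁻ y in Metric.ball (ctr i) (r i), ENNReal.ofReal (F s y) ≤
      ENNReal.ofReal (200 * r i) := by
    intro i
    refine (h.mass hfm hf0 hΦ (hr0 i) ?_ (ctr i)).trans (ENNReal.ofReal_le_ofReal ?_)
    · have h1 : r i ^ 2 ≤ ε * ε := by rw [sq]; gcongr <;> exact hr2 i
      have h2 : ε * ε ≤ ε * (1 / 10 ^ 7) := by gcongr
      have h3 : ε * 10 ^ 7 = T := by rw [hε]; field_simp
      nlinarith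
    · nlinarith [hr0 i]
  have out : ∀ s ∈ Icc 0 T, ∀ x ∉ B, u s x ≤ 1 := by
    refine h.outside hT.le hK0 hKi hKm hκ' hfm hf0 hf1 hΦ hL hBo.measurableSet ?_ ?_ ?_ ?_
      (by nlinarith)
    · refine (measure_iUnion_le _).trans ?_
      calc _ ≤ ∑' i : ℕ, ENNReal.ofReal ((1 / 32) * (1 / 2) ^ i) := by
            refine ENNReal.tsum_le_tsum fun i => (vol_ball _ (hr0 i).le).trans
              (ENNReal.ofReal_le_ofReal ?_)
            have h1 : r i ^ 2 ≤ 1 := pow_le_one₀ (hr0 i).le (by linarith [hr2 i])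
            have h2 : r i ^ 3 ≤ r i := by nlinarith [hr0 i]
            nlinarith [hr1 i, hp0 i]
        _ = _ := by rw [tsum_geo (by norm_num)]; norm_num
    · intro x; by_cases hx : x ∈ B <;> simp [hx]
    · intro x hx; simp [hx]
    · calc _ ≤ ∫⁻ s in Ioc 0 T, ∑' i, ∫⁻ y in Metric.ball (ctr i) (r i), ENNReal.ofReal (F s y) :=
            lintegral_mono fun s => lintegral_iUnion_le _ _
        _ = ∑' i, ∫⁻ s in Ioc 0 T, ∫⁻ y in Metric.ball (ctr i) (r i), ENNReal.ofReal (F s y) :=
            lintegral_tsum fun i => (hmm _).aemeasurable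
        _ ≤ ∑' i : ℕ, ENNReal.ofReal ((1 / 8) * (1 / 2) ^ i) := by
            refine ENNReal.tsum_le_tsum fun i => (mass i).trans (ENNReal.ofReal_le_ofReal ?_)
            nlinarith [hr1 i, hp0 i]
        _ = _ := by rw [tsum_geo (by norm_num)]; norm_num
  obtain ⟨ρ, hρ, hsm⟩ := heat_small (ε := 1 / (4 * (Φ + 1))) (by positivity)
  obtain ⟨j, hj⟩ := exists_pow_lt_of_lt_one (half_pos hρ) (show (1 / 2 : ℝ) < 1 by norm_num)
  refine h.blow hT hK0 hKi hKm hfm hf0 hf2 hΦ hL (by rw [hc]; have : 0 ≤ 3 / T := by positivity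
                                                     linarith)
    (by rw [hc, add_mul, div_mul_cancel₀ _ hT.ne']; nlinarith) (x := ctr j)
    (indicator_of_mem (mem_iUnion.2 ⟨j, Metric.mem_ball_self (hr0 j)⟩) _) fun t ht => ?_
  have hd := h.duh hfm hf0 hΦ (hs2 t ht) (ctr j)
  suffices hle : ENNReal.ofReal (1 - v t (ctr j)) ≤ ENNReal.ofReal (1 / 2) by
    rw [ENNReal.ofReal_le_ofReal_iff (by norm_num)] at hle; linarith
  rw [← hd]
  set d : ℕ → ℝ := fun i => (1 / 2) ^ i / 4 with hdd
  have hin : ∀ s ∈ Ioc 0 t, ∫⁻ y, ENNReal.ofReal (heat (t - s) (ctr j - y) * F s y) ≤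
      (∑' i, ENNReal.ofReal (4 / d i ^ 4) *
        ∫⁻ y in Metric.ball (ctr i) (r i), ENNReal.ofReal (F s y)) + ENNReal.ofReal Φ *
        ∫⁻ y in Metric.ball (ctr j) ρ, ENNReal.ofReal (heat (t - s) (ctr j - y)) := by
    intro s hs
    have hsT : s ∈ Icc 0 T := ⟨hs.1.le, hs.2.trans ht.2⟩
    have hF0 : ∀ y, 0 ≤ F s y := fun y => mul_nonneg (h.v_mem s (hs2 s hsT) y).1 (hf0 _)
    set A := ⋃ i, (Metric.ball (ctr i) (r i) ∩ {y | d i ≤ ‖ctr j - y‖}) with hA
    have hcov : B ⊆ A ∪ Metric.ball (ctr j) ρ := by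
      refine iUnion_subset fun i y hy => ?_
      have h1 := Metric.mem_ball.1 hy
      have h2 : r i ≤ (1 / 2) ^ i / 4 := by nlinarith [hr1 i, hp0 i]
      rcases lt_or_ge i j with hij | hij
      · left
        refine mem_iUnion.2 ⟨i, hy, ?_⟩
        have h3 : (1 / 2 : ℝ) ^ j ≤ (1 / 2) ^ (i + 1) :=
          pow_le_pow_of_le_one (by norm_num) (by norm_num) hij
        have h4 := dist_triangle (ctr i) y (ctr j)
        rw [dist_ctr, dist_comm (ctr i) y, dist_comm y (ctr j), dist_eq_norm (ctr j)] at h4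
        rw [pow_succ] at h3
        have h5 := le_abs_self ((1 / 2 : ℝ) ^ i - (1 / 2) ^ j)
        show (1 / 2) ^ i / 4 ≤ ‖ctr j - y‖
        linarith
      · right
        have h3 : (1 / 2 : ℝ) ^ i ≤ (1 / 2) ^ j :=
          pow_le_pow_of_le_one (by norm_num) (by norm_num) hij
        have h4 := dist_triangle y (ctr i) (ctr j)
        rw [dist_ctr, abs_of_nonpos (by linarith)] at h4
        rw [Metric.mem_ball]
        linarith [hp0 i]
    calc _ = ∫⁻ y in B, ENNReal.ofReal (heat (t - s) (ctr j - y) * F s y) := by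
          rw [← lintegral_indicator hBo.measurableSet]
          refine lintegral_congr fun y => ?_
          by_cases hy : y ∈ B
          · rw [indicator_of_mem hy]
          · rw [indicator_of_notMem hy]; simp [hF, hf1 _ (out s hsT y hy)]
      _ ≤ _ := by
          refine (lintegral_mono_set hcov).trans ((lintegral_union_le _ _ _).trans
            (add_le_add ((lintegral_iUnion_le _ _).trans (ENNReal.tsum_le_tsum fun i => ?_)) ?_))
          · rw [← lintegral_const_mul' _ _ ENNReal.ofReal_ne_top]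
            refine le_trans ?_ (lintegral_mono_set (inter_subset_left
              (t := {y | d i ≤ ‖ctr j - y‖})))
            refine setLIntegral_mono' (measurableSet_ball.inter
              (measurableSet_le measurable_const (by fun_prop))) fun y hy => ?_
            rw [← ENNReal.ofReal_mul (by positivity)]
            refine ENNReal.ofReal_le_ofReal (mul_le_mul_of_nonneg_right ?_ (hF0 y))
            rcases (sub_nonneg.2 hs.2).eq_or_lt with h0 | h0
            · rw [← h0]; simp only [heat]; simp; positivity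
            · exact heat_far h0 (by linarith [hs.1, ht.2]) (by positivity) hy.2
          · rw [← lintegral_const_mul' _ _ ENNReal.ofReal_ne_top]
            refine lintegral_mono fun y => ?_
            simp only
            rw [← ENNReal.ofReal_mul hΦ0, mul_comm]
            refine ENNReal.ofReal_le_ofReal (mul_le_mul_of_nonneg_right ?_ (heat_nonneg _ _))
            have h5 := h.v_mem s (hs2 s hsT) y
            have h6 := hΦ s (hs2 s hsT) y
            have h7 := hf0 (u s y)
            simp only [hF]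
            nlinarith
  calc _ ≤ _ := setLIntegral_mono' measurableSet_Ioc hin
    _ = (∑' i, ENNReal.ofReal (4 / d i ^ 4) * ∫⁻ s in Ioc 0 t,
          ∫⁻ y in Metric.ball (ctr i) (r i), ENNReal.ofReal (F s y)) + ENNReal.ofReal Φ *
          ∫⁻ s in Ioc 0 t, ∫⁻ y in Metric.ball (ctr j) ρ,
            ENNReal.ofReal (heat (t - s) (ctr j - y)) := by
        rw [lintegral_add_left (Measurable.ennreal_tsum fun i => (hmm _).const_mul _),
          lintegral_tsum fun i => ((hmm _).const_mul _).aemeasurable,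
          lintegral_const_mul' _ _ ENNReal.ofReal_ne_top]
        congr 2 with i
        exact lintegral_const_mul' _ _ ENNReal.ofReal_ne_top
    _ ≤ (∑' i : ℕ, ENNReal.ofReal ((1 / 8) * (1 / 2) ^ i)) +
          ENNReal.ofReal Φ * ENNReal.ofReal (1 / (4 * (Φ + 1))) := by
        refine add_le_add (ENNReal.tsum_le_tsum fun i => ?_) ?_
        · calc _ ≤ ENNReal.ofReal (4 / d i ^ 4) * ENNReal.ofReal (200 * r i) := by
                gcongr
                exact (lintegral_mono_set (Ioc_subset_Ioc_right ht.2)).trans (mass i)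
            _ ≤ _ := by
                rw [← ENNReal.ofReal_mul (by positivity)]
                apply ENNReal.ofReal_le_ofReal
                have : 4 / d i ^ 4 * (200 * r i) = 204800 * ε * (1 / 2) ^ i := by
                  have := (hp0 i).ne'
                  simp only [hdd, hr]; field_simp; norm_num
                rw [this]
                nlinarith [hp0 i]
        · gcongr
          exact hsm t ⟨ht.1, by linarith [ht.2]⟩ _
    _ ≤ _ := by
        rw [tsum_geo (by norm_num), ← ENNReal.ofReal_mul hΦ0,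
          ← ENNReal.ofReal_add (by norm_num) (by positivity)]
        apply ENNReal.ofReal_le_ofReal
        have : Φ * (1 / (4 * (Φ + 1))) ≤ 1 / 4 := by
          rw [mul_one_div, div_le_iff₀ (by positivity)]; linarith
        linarith

end Pool.Agent.Results.MP_360b3f_an.Counter
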